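import Pool.Agent.K3h10.EX.Coord
import Pool.Agent.K3h22.EX.Stm6

/-!
# Brick COORD2 of project ET (helper6), adapted from the file of helper10
-/

set_option autoImplicit false

namespace Pool.Agent.K3h6.ET

open MvPolynomial Pool.Agent.K3h22.EX

/-- rows which are independent over `ℚ` are independent over each field of characteristic zero -/
theorem rows_indep {k n : ℕ} (M : Fin k → Fin n → ℚ) (hM : LinearIndependent ℚ M)
    (K : Type) [Field K] [CharZero K] (c : Fin k → K)
    (h : ∀ j, ∑ i, c i * (M i j : K) = 0) : c = 0 := by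
  classical
  -- a right inverse of `M`
  have hinj : Function.Injective (Fintype.linearCombination ℚ M) :=
    LinearMap.ker_eq_bot.1 (by
      rw [LinearMap.ker_eq_bot']
      intro g hg
      funext i
      exact Fintype.linearIndependent_iff.1 hM g (by
        rw [Fintype.linearCombination_apply] at hg
        exact hg) i)
  obtain ⟨N, hN⟩ := LinearMap.exists_leftInverse_of_injective _ (LinearMap.ker_eq_bot.2 hinj)
  -- entries of the left inverse
  have hN' : ∀ i i' : Fin k, ∑ j, M i j * N (Pi.single j 1) i' = if i = i' then 1 else 0 := by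
    intro i i'
    have h1 : N (Fintype.linearCombination ℚ M (Pi.single i 1)) = Pi.single i 1 := by
      have := LinearMap.congr_fun hN (Pi.single i 1)
      simpa using this
    have h2 : Fintype.linearCombination ℚ M (Pi.single i 1) = M i := by
      simp [Fintype.linearCombination_apply_single]
    rw [h2] at h1
    have h3 : M i = ∑ j, M i j • (Pi.single j 1 : Fin n → ℚ) := by
      ext j
      simp [Finset.sum_apply, Pi.single_apply]
    rw [h3, map_sum] at h1
    have h4 := congrFun h1 i'
    simp only [map_smul, Finset.sum_apply, Pi.smul_apply, smul_eq_mul] at h4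
    rw [h4, Pi.single_apply]
    simp [eq_comm]
  funext i'
  have h5 : c i' = ∑ i, c i * ((∑ j, M i j * N (Pi.single j 1) i' : ℚ) : K) := by
    have h6 : ∀ i : Fin k, c i * ((∑ j, M i j * N (Pi.single j 1) i' : ℚ) : K) =
        if i = i' then c i else 0 := by
      intro i
      rw [hN' i i']
      split_ifs <;> simp
    rw [Finset.sum_congr rfl fun i _ => h6 i]
    simp
  rw [h5]
  push_cast
  simp only [Finset.mul_sum]
  rw [Finset.sum_comm]
  refine Finset.sum_eq_zero fun j _ => ?_
  calc ∑ i, c i * ((M i j : K) * (N (Pi.single j 1) i' : K))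
      = (∑ i, c i * (M i j : K)) * (N (Pi.single j 1) i' : K) := by
        rw [Finset.sum_mul]
        exact Finset.sum_congr rfl fun i _ => by ring
    _ = 0 := by rw [h j, zero_mul]

/-- the combinations of `k` numbers span a rational space of dimension at most `k` -/
theorem span_le {k n : ℕ} (M : Fin k → Fin n → ℚ) (K : Type) [Field K] [CharZero K]
    (c : Fin k → K) :
    Module.finrank ℚ (Submodule.span ℚ (Set.range fun j => ∑ i, c i * (M i j : K))) ≤ k := by
  have h1 : Submodule.span ℚ (Set.range fun j => ∑ i, c i * (M i j : K)) ≤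
      Submodule.span ℚ (Set.range c) := by
    rw [Submodule.span_le]
    rintro x ⟨j, rfl⟩
    refine Submodule.sum_mem _ fun i _ => ?_
    have : c i * (M i j : K) = (M i j) • c i := by
      rw [Rat.smul_def, mul_comm]
    change c i * (M i j : K) ∈ _
    rw [this]
    exact Submodule.smul_mem _ _ (Submodule.subset_span (Set.mem_range_self i))
  have : FiniteDimensional ℚ (Submodule.span ℚ (Set.range c)) :=
    FiniteDimensional.span_of_finite ℚ (Set.finite_range c)
  refine (Submodule.finrank_mono h1).trans ?_
  have := finrank_range_le_card (R := ℚ) (b := c)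
  simpa [Set.finrank] using this

theorem t_COORD2 : S_COORD2 := by
  classical
  intro n s V L hG hne hVL hden
  obtain ⟨hs, hreal, hcomp⟩ := hG
  obtain ⟨ι, E, hinj, hE⟩ := Pool.Agent.K3h10.EX.sub_coords n s L.direction hs
  obtain ⟨u₀, hu₀⟩ := hne
  set x₀ : Fin n → ℂ := fun i => u₀ (Sum.inl i) with hx₀
  have hx₀L : x₀ ∈ L := hVL u₀ hu₀
  let w : Fin s → L.direction := fun a => E.symm (Pi.single a 1)
  have hEw : ∀ a, E (w a) = Pi.single a 1 := fun a => E.apply_symm_apply _
  have hw : ∀ v : L.direction, v = ∑ a, (v : Fin n → ℂ) (ι a) • w a := by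
    intro v
    apply E.injective
    rw [map_sum]
    ext b
    simp only [map_smul, Finset.sum_apply, Pi.smul_apply, smul_eq_mul]
    simp only [hEw]
    simp [Pi.single_apply, hE v b]
  have hwi : ∀ v : L.direction, ∀ i, (v : Fin n → ℂ) i = ∑ a, (w a : Fin n → ℂ) i * (v : Fin n → ℂ) (ι a) := by
    intro v i
    refine (congrArg (fun t : L.direction => (t : Fin n → ℂ) i) (hw v)).trans ?_
    simp [Finset.sum_apply, mul_comm]
  have hcomb : ∀ c : Fin s → ℂ, ∀ b, ((∑ a, c a • w a : L.direction) : Fin n → ℂ) (ι b) = c b := by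
    intro c b
    rw [← hE, map_sum]
    simp only [map_smul, hEw, Finset.sum_apply, Pi.smul_apply, smul_eq_mul]
    simp [Pi.single_apply]
  have hzero : ∀ c : Fin n → ℂ, (∀ a, ∑ i, c i * (w a : Fin n → ℂ) i = 0) →
      ∀ v ∈ L.direction, ∑ i, c i * v i = 0 := by
    intro c hc v hv
    have h1 : ∀ i, v i = ∑ a, (w a : Fin n → ℂ) i * v (ι a) := fun i => hwi ⟨v, hv⟩ i
    calc ∑ i, c i * v i = ∑ i, ∑ a, c i * (w a : Fin n → ℂ) i * v (ι a) := by
          refine Finset.sum_congr rfl fun i _ => ?_
          conv_lhs => rw [h1 i]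
          rw [Finset.mul_sum]
          exact Finset.sum_congr rfl fun a _ => by ring
      _ = ∑ a, (∑ i, c i * (w a : Fin n → ℂ) i) * v (ι a) := by
          rw [Finset.sum_comm]
          exact Finset.sum_congr rfl fun a _ => by rw [Finset.sum_mul]
      _ = 0 := by
          refine Finset.sum_eq_zero fun a _ => ?_
          rw [hc a, zero_mul]
  refine ⟨ι, fun i a => (w a : Fin n → ℂ) i, fun i => x₀ i - ∑ a, (w a : Fin n → ℂ) i * x₀ (ι a), hinj, ?_, ?_, ?_, ?_⟩
  · intro u hu i
    have h1 : (fun i => u (Sum.inl i)) - x₀ ∈ L.direction :=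
      AffineSubspace.vsub_mem_direction (hVL u hu) hx₀L
    have h2 := hwi ⟨_, h1⟩ i
    simp only [Pi.sub_apply, mul_sub, Finset.sum_sub_distrib] at h2
    linear_combination h2
  · intro f hfv hf
    have hsub : (f.vars : Set (Fin n ⊕ Fin n)) ⊆ Set.range fun a => (Sum.inl (ι a) : Fin n ⊕ Fin n) := by
      intro x hx
      have h1 := hfv hx
      simp only [coords, Finset.image_empty, Finset.union_empty, Finset.mem_image,
        Finset.mem_univ, true_and] at h1
      exact h1
    have hinj' : Function.Injective fun a => (Sum.inl (ι a) : Fin n ⊕ Fin n) := by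
      intro a b hab
      exact hinj (Sum.inl_injective hab)
    obtain ⟨h, rfl⟩ := exists_rename_eq_of_vars_subset_range f _ hinj' hsub
    have h1 : ∀ x ∈ L, eval x (rename ι h) = 0 := by
      apply hden
      intro u hu
      have h2 := hf u hu
      rw [eval_rename] at h2 ⊢
      exact h2
    have h2 : h = 0 := by
      apply MvPolynomial.funext
      intro z
      have h3 : x₀ + ((∑ a, (z a - x₀ (ι a)) • w a : L.direction) : Fin n → ℂ) ∈ L := by
        have := AffineSubspace.vadd_mem_of_mem_direction
          (∑ a, (z a - x₀ (ι a)) • w a : L.direction).2 hx₀L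
        rwa [vadd_eq_add, add_comm] at this
      have h4 := h1 _ h3
      rw [eval_rename] at h4
      rw [map_zero, ← h4]
      congr 1
      congr 1
      funext b
      simp only [Function.comp_apply, Pi.add_apply]
      rw [hcomb]
      ring
    rw [h2, map_zero]
  · intro k M c hk hM hc
    apply rows_indep M hM ℝ c
    by_contra hcon
    have hne : (fun j => ∑ i, c i * (M i j : ℝ)) ≠ 0 := fun h => hcon fun j => congrFun h j
    obtain ⟨v, hv, hv0⟩ := hreal _ hne ((span_le M ℝ c).trans hk)
    apply hv0
    refine hzero (fun j => ((∑ i, c i * (M i j : ℝ) : ℝ) : ℂ)) (fun a => ?_) v hv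
    rw [← hc a]
    push_cast
    simp only [Finset.sum_mul, Finset.mul_sum]
    rw [Finset.sum_comm]
    exact Finset.sum_congr rfl fun i _ => Finset.sum_congr rfl fun j _ => by ring
  · intro M hM hdet
    obtain ⟨c, hc, hMc⟩ := Matrix.exists_vecMul_eq_zero_iff.mpr hdet
    apply hc
    apply rows_indep M hM ℂ c
    by_contra hcon
    have hne : (fun j => ∑ i, c i * (M i j : ℂ)) ≠ 0 := fun h => hcon fun j => congrFun h j
    obtain ⟨v, hv, hv0⟩ := hcomp _ hne (span_le M ℂ c)
    apply hv0
    refine hzero (fun j => ∑ i, c i * (M i j : ℂ)) (fun a => ?_) v hv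
    have h2 := congrFun hMc a
    simp only [Matrix.vecMul, dotProduct, Matrix.of_apply, Pi.zero_apply] at h2
    rw [← h2]
    simp only [Finset.sum_mul, Finset.mul_sum]
    rw [Finset.sum_comm]
    exact Finset.sum_congr rfl fun i _ => Finset.sum_congr rfl fun j _ => by ring

end Pool.Agent.K3h6.ET
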