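import Pool.Agent.K3h22.EX.Stm6

/-!
# Brick RESQ of project ET (helper6)
-/

set_option autoImplicit false

namespace Pool.Agent.K3h6.ET

open Polynomial

/-- the resultant `Res_U (f(U), D' T - G(U))` -/
noncomputable def rq {A : Type} [CommRing A] (f G : Polynomial A) (D' : A) : Polynomial A :=
  resultant (f.map C) (C (C D' * X) - G.map C) f.natDegree G.natDegree

theorem map_rq {A k : Type} [CommRing A] [Field k] [IsAlgClosed k] (f G : Polynomial A)
    (hf : f.Monic) (D' : A) (φ : Polynomial A →+* k) :
    φ (rq f G D') = ((f.map (φ.comp C)).roots.map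
      fun u => φ (C D') * φ X - (G.map (φ.comp C)).eval u).prod := by
  have e : φ (rq f G D') = resultant (f.map (φ.comp C)) (C (φ (C D') * φ X) - G.map (φ.comp C))
      f.natDegree G.natDegree := by
    unfold rq
    rw [← resultant_map_map, Polynomial.map_map, Polynomial.map_sub, Polynomial.map_map,
      Polynomial.map_C, map_mul]
  have hm : (f.map (φ.comp C)).Monic := hf.map _
  have hd : (f.map (φ.comp C)).natDegree = f.natDegree := hf.natDegree_map _
  have hn : (C (φ (C D') * φ X) - G.map (φ.comp C)).natDegree ≤ G.natDegree := by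
    refine (natDegree_sub_le _ _).trans ?_
    rw [natDegree_C]
    exact max_le (Nat.zero_le _) natDegree_map_le
  have key := resultant_eq_prod_eval (f.map (φ.comp C)) (C (φ (C D') * φ X) - G.map (φ.comp C))
    G.natDegree hn (IsAlgClosed.splits _)
  rw [hd] at key
  rw [e, key, hm.leadingCoeff]
  simp

theorem t_RESQ : Pool.Agent.K3h22.EX.S_RESQ := by
  classical
  intro A F _ _ _ _ s f θ D N y m hinj hf hθ hD hy
  set M : ℕ := ∑ a, m a with hM
  set G : Polynomial A := ∏ a, N a ^ m a with hG
  refine ⟨rq f G (D ^ M), ?_, ?_, ?_⟩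
  · -- nonzero
    intro h0
    have hinj2 : Function.Injective (algebraMap F (AlgebraicClosure F)) :=
      (algebraMap F (AlgebraicClosure F)).injective
    let ψ : A →+* AlgebraicClosure F := (algebraMap F (AlgebraicClosure F)).comp (algebraMap A F)
    have hψ : Function.Injective ψ := hinj2.comp hinj
    have hD' : ψ (D ^ M) ≠ 0 := by
      rw [map_pow]
      exact pow_ne_zero _ fun h => hD (hψ (by rw [h, map_zero]))
    obtain ⟨t, ht⟩ := Infinite.exists_notMem_finset
      (((f.map ψ).roots.map fun u => (G.map ψ).eval u / ψ (D ^ M)).toFinset)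
    have key := map_rq f G hf (D ^ M) (eval₂RingHom ψ t)
    have hc : (eval₂RingHom ψ t).comp C = ψ := by
      ext a
      simp
    rw [hc, h0, map_zero] at key
    have hz := Multiset.prod_eq_zero_iff.1 key.symm
    rw [Multiset.mem_map] at hz
    obtain ⟨u, hu, hu2⟩ := hz
    apply ht
    rw [Multiset.mem_toFinset, Multiset.mem_map]
    refine ⟨u, hu, ?_⟩
    have : ψ (D ^ M) * t = (G.map ψ).eval u := by
      have h1 : (eval₂RingHom ψ t) (C (D ^ M)) = ψ (D ^ M) := by
        rw [coe_eval₂RingHom, eval₂_C]
      have h2 : (eval₂RingHom ψ t) X = t := by simp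
      rw [h1, h2] at hu2
      exact sub_eq_zero.1 hu2
    rw [← this, mul_div_cancel_left₀ _ hD']
  · -- the relation
    have hinj2 : Function.Injective (algebraMap F (AlgebraicClosure F)) :=
      (algebraMap F (AlgebraicClosure F)).injective
    set θ' : F := ∏ a, y a ^ m a with hθ'
    let φ : Polynomial A →+* AlgebraicClosure F :=
      (algebraMap F (AlgebraicClosure F)).comp (aeval θ' : Polynomial A →ₐ[A] F).toRingHom
    have key := map_rq f G hf (D ^ M) φ
    have hc : φ.comp C = (algebraMap F (AlgebraicClosure F)).comp (algebraMap A F) := by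
      ext a
      simp [φ]
    have hφ : φ (rq f G (D ^ M)) = algebraMap F (AlgebraicClosure F) (aeval θ' (rq f G (D ^ M))) := rfl
    apply hinj2
    rw [map_zero, ← hφ, key, Multiset.prod_eq_zero_iff, Multiset.mem_map]
    refine ⟨algebraMap F (AlgebraicClosure F) θ, ?_, ?_⟩
    · rw [mem_roots (hf.map _).ne_zero, IsRoot.def, hc, ← Polynomial.map_map, eval_map_apply,
        eval_map_algebraMap, hθ, map_zero]
    · have h1 : φ (C (D ^ M)) = algebraMap F (AlgebraicClosure F) (algebraMap A F D ^ M) := by
        simp [φ]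
      have h2 : φ X = algebraMap F (AlgebraicClosure F) θ' := by simp [φ]
      rw [h1, h2, hc, ← Polynomial.map_map, eval_map_apply, eval_map_algebraMap, ← map_mul,
        ← map_sub]
      have h3 : algebraMap A F D ^ M * θ' = aeval θ G := by
        rw [hθ', hG, hM, map_prod, ← Finset.prod_pow_eq_pow_sum, ← Finset.prod_mul_distrib]
        refine Finset.prod_congr rfl fun a _ => ?_
        rw [← mul_pow, hy a, map_pow]
      rw [h3, sub_self, map_zero]
  · intro χ hχ t ht
    have key := map_rq f G hf (D ^ M) (eval₂RingHom χ t)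
    have hc : (eval₂RingHom χ t).comp C = χ := by
      ext a
      simp
    have h1 : (eval₂RingHom χ t) (C (D ^ M)) = χ D ^ M := by
      rw [coe_eval₂RingHom, eval₂_C, map_pow]
    have h2 : (eval₂RingHom χ t) X = t := by simp
    have h3 : (eval₂RingHom χ t) (rq f G (D ^ M)) = 0 := by
      rw [← ht, eval_map]
      rfl
    rw [hc, h1, h2, h3] at key
    have hz := Multiset.prod_eq_zero_iff.1 key.symm
    rw [Multiset.mem_map] at hz
    obtain ⟨u, hu, hu2⟩ := hz
    refine ⟨u, ?_, ?_⟩
    · have := (mem_roots (hf.map χ).ne_zero).1 hu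
      exact this
    · have h4 : χ D ^ M * t = ∏ a, ((N a).map χ).eval u ^ m a := by
        rw [sub_eq_zero.1 hu2, hG, Polynomial.map_prod, eval_prod]
        refine Finset.prod_congr rfl fun a _ => ?_
        rw [Polynomial.map_pow, eval_pow]
      have h5 : ∏ a, (((N a).map χ).eval u / χ D) ^ m a =
          (∏ a, ((N a).map χ).eval u ^ m a) / χ D ^ M := by
        rw [hM, ← Finset.prod_pow_eq_pow_sum, ← Finset.prod_div_distrib]
        refine Finset.prod_congr rfl fun a _ => ?_
        rw [div_pow]
      rw [h5, ← h4, mul_div_cancel_left₀ _ (pow_ne_zero _ hχ)]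

end Pool.Agent.K3h6.ET
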